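import Pool.Agent.Helper5_VLF.NEW
import Pool.Agent.Helper7_VLF.TYP
import Pool.Agent.Helper20_VLF.STD
import Pool.Agent.Helper38_VLF.SAT
import Pool.Agent.Helper44_VLF.LFT
import Pool.Agent.Helper51_VLF.JTF
import Pool.Agent.Helper59_VLF.DUA
import Pool.Agent.Helper62_VLF.CUB
import Pool.Agent.Helper64_VLF.PER
import Pool.Agent.Helper6_VLF.EXT
import Pool.Agent.Helper81_VLF.CMP
import Pool.Agent.Helper82_VLF.POW

/-!
# Lifting of knot invariants of finite type with values in `ℤ / p ^ k`

`F d = F_d(ZK)` is the Vassiliev filtration of the free abelian group on oriented knots.  An invariant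
of type `d` with values in an abelian group is a homomorphism from `ZK` which vanishes on `F (d + 1)`.
Torsion freeness of all `F d / F (d + 1)` means that every invariant of type `d` with values in
`ℤ / p ^ k` is the reduction of an integer valued invariant of the same type `d`.  Here it is proved
that every such invariant is the reduction of one integer valued function `V` which modulo
`p ^ (k + a)` is of type `d * (p ^ (k - 1) * (1 + (p - 1) * a))`, for every `a`, together with the dual
statements about torsion.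
-/

namespace Pool.Agent.Results.MP_a7acc9_gt.PadicLifting

open Pool.Agent.ZOL Pool.Agent.VLF

theorem result :
    (∀ p k d : ℕ, p.Prime → 1 ≤ k → ∀ v : ZK →+ ZMod (p ^ k), (∀ x ∈ F (d + 1), v x = 0) →
      ∃ V : ZK →+ ℤ, (∀ x : ZK, (V x : ZMod (p ^ k)) = v x) ∧
        ∀ a : ℕ, ∀ x ∈ F (d * (p ^ (k - 1) * (1 + (p - 1) * a)) + 1), ((p : ℤ) ^ (k + a)) ∣ V x) ∧
    (∀ p k a d : ℕ, p.Prime → 1 ≤ k → ∀ x y : ZK,
      (p ^ a) • x + (p ^ (k + a)) • y ∈ F (d * (p ^ (k - 1) * (1 + (p - 1) * a)) + 1) →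
        ∃ z : ZK, x + (p ^ k) • z ∈ F (d + 1)) ∧
    (∀ (n : ℕ) (x : ZK), 0 < n → (∀ e N : ℕ, 0 < N → ∃ y : ZK, n • x + N • y ∈ F e) →
      ∀ e N : ℕ, 0 < N → ∃ y : ZK, x + N • y ∈ F e) := by
  have hPER : PerStmt := H64.per H82.pow
  have hSTD : StdStmt := H20.std hPER
  have hCMP : CmpStmt := H81.cmp H5.new
  have hTYP : TypStmt := H7.typ hSTD hCMP H44.lft H62.cub
  have hSAT : SatStmt := H38.sat hTYP H59.dua
  exact ⟨H6.ext_lift hTYP, hSAT, H51.jtf hSAT⟩

end Pool.Agent.Results.MP_a7acc9_gt.PadicLifting
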