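import Pool.Agent.Helper90_VTP.Main

/-!
# The graded Vassiliev group is a polynomial ring over a subgroup, one variable in each degree `≥ 2`

For the Vassiliev filtration `F d` of the free abelian group `ZK` on oriented knots there are
abelian groups `M 0, M 1, M 2, ...` such that for every `d` the group `F_d / F_(d+1)` is isomorphic
to the direct sum of the groups `M (d - n)`, one copy for every `n ≤ d` and every partition of `n`
into parts `≥ 2`.  Consequence: for every prime `p` either no `F_d / F_(d+1)` has `p`-torsion, or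
the `p`-torsion grows at least like the number `np n` of partitions of `n` into parts `≥ 2`,
which is larger than every polynomial.
-/

namespace Pool.Agent.Results.MP_a7acc9_gt.PolynomialStructure

open Pool.Agent.ZOL Pool.Agent.VTP

theorem result :
    (∃ (M : ℕ → Type) (_ : ∀ k, AddCommGroup (M k)), ∀ d : ℕ,
      Nonempty (Graded d ≃+ ((s : {s : Multiset ℕ // (∀ x ∈ s, 2 ≤ x) ∧ s.sum ≤ d}) →
        M (d - s.1.sum)))) ∧
    (∀ p : ℕ, p.Prime → (∀ (d : ℕ) (x : Graded d), (p : ℤ) • x = 0 → x = 0) ∨
      ∃ e : ℕ, ∀ d, e ≤ d → Embeds (Fin (np (d - e)) → ZMod p) (Graded d)) ∧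
    (∀ k : ℕ, ∃ N : ℕ, ∀ n, N ≤ n → n ^ k ≤ np n) := H90.main

end Pool.Agent.Results.MP_a7acc9_gt.PolynomialStructure
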